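import Mathlib
import Pool.Agent.FR624.Lines

/-!
# MP_aa1d7d_co: `T₄(n) ≤ (n² - n - 6) / 14` for `n ≥ 5`
-/

open Finset Pool.Agent.FR624

namespace Pool.Agent.Results.MP_aa1d7d_co.FourteenthBound

/-- `T₄(n)`: the maximum of `t₄(P)` over 5-free sets `P` of `n` points of the plane -/
noncomputable def T4 (n : ℕ) : ℕ :=
  sSup {t | ∃ P : Finset E2, P.card = n ∧ FiveFree P ∧ t = (richLines 4 P).ncard}

end Pool.Agent.Results.MP_aa1d7d_co.FourteenthBound

open Pool.Agent.Results.MP_aa1d7d_co.FourteenthBound in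
theorem Pool.Agent.Results.MP_aa1d7d_co.FourteenthBound.result :
    (∀ P : Finset E2, 5 ≤ P.card → FiveFree P →
      ((richLines 4 P).ncard : ℝ) ≤ ((P.card : ℝ) ^ 2 - P.card - 6) / 14) ∧
    (∀ n : ℕ, 5 ≤ n → (T4 n : ℝ) ≤ ((n : ℝ) ^ 2 - n - 6) / 14) := by
  have key : ∀ P : Finset E2, 5 ≤ P.card → FiveFree P →
      ((richLines 4 P).ncard : ℝ) ≤ ((P.card : ℝ) ^ 2 - P.card - 6) / 14 := by
    intro P h5 hP
    have h := rich_bound P h5 hP
    have h1 : P.card ≤ P.card * P.card := Nat.le_mul_self _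
    have h2 : ((14 * (richLines 4 P).ncard + 6 : ℕ) : ℝ) ≤ ((P.card * P.card - P.card : ℕ) : ℝ) := by
      exact_mod_cast h
    rw [Nat.cast_sub h1] at h2
    push_cast at h2
    rw [le_div_iff₀ (by norm_num)]
    nlinarith
  refine ⟨key, fun n hn => ?_⟩
  unfold T4
  have hn' : (0 : ℝ) ≤ ((n : ℝ) ^ 2 - n - 6) / 14 := by
    have : (5 : ℝ) ≤ n := by exact_mod_cast hn
    apply div_nonneg _ (by norm_num)
    nlinarith
  rcases Set.eq_empty_or_nonempty
    {t | ∃ P : Finset E2, P.card = n ∧ FiveFree P ∧ t = (richLines 4 P).ncard} with h | h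
  · rw [h]
    simpa using hn'
  · have hb : BddAbove {t | ∃ P : Finset E2, P.card = n ∧ FiveFree P ∧ t = (richLines 4 P).ncard} := by
      refine ⟨n * n, ?_⟩
      rintro t ⟨P, rfl, hP, rfl⟩
      have := rich_bound P hn hP
      omega
    obtain ⟨P, hPn, hP, ht⟩ := Nat.sSup_mem h hb
    rw [ht]
    have := key P (by omega) hP
    rw [hPn] at this
    exact this
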